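import Mathlib

set_option autoImplicit false

/-!
# A (3,2,1)-conjugate orthogonal idempotent Latin square of order 12

The quasigroup below was found by a SAT solver among the quasigroups of order 12 with a cyclic group
of automorphisms of order 6 acting with two orbits. Write `R y x = x ∘ y`. The pair
`(x ∘ y, x ∘₃₂₁ y)` is `(R y (R y w), w)` for the `w` with `w ∘ y = x`; the table `ia`
recovers `x` from this pair. The multiplication table (row `x`, column `y`) is
```
   0  8  4  7  9  3  1 11  5  6  2 10
   5  1  6  4  8 10  3  2  9 11  7  0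
   7  3  2 11  5  6 10  4  0  1  9  8
  10  6  0  3 11  1  9  5  7  4  8  2
   1 11  7  2  4  9  8 10  3  0  5  6
   8  2  9 10  0  5  4  6 11  7  1  3
  11  7  3  5  1  8  6  0 10  2  4  9
   4  9  8  6  3  2 11  7  1 10  0  5
   6  5 10  0  7  4  2  9  8  3 11  1
   2  4 11  8 10  0  5  1  6  9  3  7
   9  0  5  1  6 11  7  3  2  8 10  4
   3 10  1  9  2  7  0  8  4  5  6 11
```
-/

namespace Pool.Agent.Results.MP_b1d8d5_co.ConjugateOrthogonalTwelve

/-- `op` is a quasigroup operation on `S`: all equations `a ∘ x = b` and `x ∘ a = b` have exactly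
one solution. -/
def IsQuasigroup {S : Type} (op : S → S → S) : Prop :=
  ∀ a b : S, (∃! x, op a x = b) ∧ (∃! x, op x a = b)

/-- `op'` is the `(3,2,1)`-conjugate of `op`: `z ∘₃₂₁ y = x` if and only if `x ∘ y = z`. -/
def IsConj321 {S : Type} (op op' : S → S → S) : Prop :=
  ∀ x y z : S, op' z y = x ↔ op x y = z

/-- Two quasigroups on `S` are orthogonal if there are no `a ≠ b` and `c ≠ d` with
`a ∘ c = b ∘ d` and `a ⋆ c = b ⋆ d`. -/
def Orthogonal {S : Type} (op op' : S → S → S) : Prop :=
  ¬ ∃ a b c d : S, a ≠ b ∧ c ≠ d ∧ op a c = op b d ∧ op' a c = op' b d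

/-- The table with base-12 digits `t` (row `i`, column `j` is digit `12 i + j`). -/
def tab (t : ℕ) (i j : Fin 12) : Fin 12 := Fin.ofNat 12 (t / 12 ^ (12 * i.val + j.val))

/-- The multiplication table. -/
def op : Fin 12 → Fin 12 → Fin 12 := tab
  242676143942603996315616745185391077160388270257022430550477322972117891135283482598073642995506938671760199936612802911831356330803131886816182984583364320

/-- Left division. -/
def ld : Fin 12 → Fin 12 → Fin 12 := tab
  233654251670557336029859069563765938632288868463120092627636625097781717010231923418014022220336411341301140916945133488168897245933361587396987751753742760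

/-- The `(3,2,1)`-conjugate. -/
def cj : Fin 12 → Fin 12 → Fin 12 := tab
  245602178614479027933487345783768347142075810943502300112954771489940624400345005576173518313272789630062280942514363246500928759684231810442618461089409320

/-- `ia (a ∘ c) (a ∘₃₂₁ c) = a`. -/
def ia : Fin 12 → Fin 12 → Fin 12 := tab
  244302181126638826512301428695192553717369644258766536094193295202511475736681027141066573825029190620993117840092798483997415260552460767292687192338575140

theorem ld_op : ∀ a x, ld a (op a x) = x := by decide +kernel
theorem op_ld : ∀ a b, op a (ld a b) = b := by decide +kernel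
theorem cj_op : ∀ x y, cj (op x y) y = x := by decide +kernel
theorem op_cj : ∀ z y, op (cj z y) y = z := by decide +kernel
theorem op_idem : ∀ x, op x x = x := by decide +kernel
theorem ia_op : ∀ a c, ia (op a c) (cj a c) = a := by decide +kernel

/-- There is an idempotent quasigroup of order 12 that is orthogonal to its `(3,2,1)`-conjugate. -/
theorem result : ∃ op op' : Fin 12 → Fin 12 → Fin 12,
    IsQuasigroup op ∧ (∀ x, op x x = x) ∧ IsConj321 op op' ∧ IsQuasigroup op' ∧
      Orthogonal op op' := by
  have hcj : IsConj321 op cj := by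
    intro x y z
    constructor
    · intro h
      rw [← h, op_cj]
    · intro h
      rw [← h, cj_op]
  refine ⟨op, cj, ?_, op_idem, hcj, ?_, ?_⟩
  · intro a b
    refine ⟨⟨ld a b, op_ld a b, ?_⟩, ⟨cj b a, op_cj b a, ?_⟩⟩
    · intro x hx
      rw [← hx, ld_op]
    · intro x hx
      rw [← hx, cj_op]
  · intro a b
    refine ⟨⟨ld b a, ?_, ?_⟩, ⟨op b a, cj_op b a, ?_⟩⟩
    · exact (hcj b (ld b a) a).2 (op_ld b a)
    · intro x hx
      have h := (hcj b x a).1 hx
      rw [← h, ld_op]
    · intro x hx
      exact ((hcj b a x).1 hx).symm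
  · rintro ⟨a, b, c, d, hab, -, h1, h2⟩
    apply hab
    rw [← ia_op a c, ← ia_op b d, h1, h2]

end Pool.Agent.Results.MP_b1d8d5_co.ConjugateOrthogonalTwelve
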